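import Pool.Agent.Y16.BK.Geo
import Pool.Agent.Y16.BK.Conv

/-!
# Metrics which are not real analytic, smoothly close to the Fubini-Study metric, with uniform
exponential decay of the Bergman kernels

The proof adapts the starting library of helper206 (one metric, parameter `1 / 1000`).
-/

set_option autoImplicit false

noncomputable section

namespace Pool.Agent.Results.MP_6c43ae_an.NearFubiniStudy

open Pool.Agent.Helper206.Berg (HermitianMetric fsDist)
open Pool.Agent.Y16.BK (metric)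

/-- On `L = O(1) → ℙ¹` consider, for real `e`, the smooth Hermitian metric `metric e` whose dual
squared norm is `(|a|² + |b|²) exp (e exp (- |a|² / |b|²))`; `metric 0` is the Fubini–Study metric.
For `0 < e ≤ 1 / 1000` it is positively curved and not real analytic, and its Bergman kernels decay
exponentially off the diagonal, with constants which depend on the distance `δ` but not on `e`. As
`e → 0` the metrics converge to the Fubini–Study metric with all derivatives. -/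
theorem result :
    (∀ (e : ℝ) (v : ℂ × ℂ), (metric e).Φ v = (‖v.1‖ ^ 2 + ‖v.2‖ ^ 2) *
      Real.exp (e * if v.2 = 0 then 0 else Real.exp (-(‖v.1‖ ^ 2 / ‖v.2‖ ^ 2)))) ∧
    (∀ e : ℝ, 0 < e → e ≤ 1 / 1000 →
      (metric e).IsPositive ∧ ¬ (metric e).IsRealAnalytic ∧ (metric e).HasExponentialDecay) ∧
    (∀ δ : ℝ, 0 < δ → ∃ c₁ : ℝ, 0 < c₁ ∧ ∃ c₂ : ℝ, 0 < c₂ ∧
      ∀ e : ℝ, 0 ≤ e → e ≤ 1 / 1000 → ∀ k : ℕ, 1 ≤ k →
      ∀ (ι : Type) [Fintype ι] [DecidableEq ι] (s : ι → ℂ × ℂ → ℂ),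
        (metric e).IsOrthonormalBasis k s → ∀ v w : ℂ × ℂ, v ≠ 0 → w ≠ 0 → δ < fsDist v w →
          (metric e).kernelNorm k s v w ≤ c₁ * Real.exp (-c₂ * k)) ∧
    (∀ (n : ℕ) (K : Set (ℂ × ℂ)), IsCompact K → 0 ∉ K → ∀ ε : ℝ, 0 < ε →
      ∃ e₀ : ℝ, 0 < e₀ ∧ ∀ e : ℝ, 0 < e → e ≤ e₀ → ∀ j ≤ n, ∀ v ∈ K,
        ‖iteratedFDeriv ℝ j (fun w => (metric e).Φ w - (metric 0).Φ w) v‖ < ε) := by
  refine ⟨fun e v => rfl, fun e h0 h1 => ⟨Pool.Agent.Y16.BK.isPositive e h0.le h1,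
    Pool.Agent.Y16.BK.not_analytic e h0 h1, Pool.Agent.Y16.BK.hasDecay e h0.le h1⟩,
    fun δ hδ => Pool.Agent.Y16.BK.uniform_decay hδ, fun n K hK h0 ε hε => ?_⟩
  obtain ⟨e₀, he₀, H⟩ := Pool.Agent.Y16.BK.conv n K hK h0 ε hε
  refine ⟨e₀, he₀, fun e h1 h2 j hj v hv => ?_⟩
  have e1 : (fun w : ℂ × ℂ => (metric e).Φ w - (metric 0).Φ w) =
      fun w : ℂ × ℂ => Pool.Agent.Y16.BK.GG (e, w) := by
    funext w
    show Pool.Agent.Y16.BK.PhE e w - Pool.Agent.Y16.BK.PhE 0 w = _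
    unfold Pool.Agent.Y16.BK.PhE Pool.Agent.Y16.BK.GG
    simp only [zero_mul, Real.exp_zero]
    ring
  rw [e1]
  exact H e (by rw [abs_of_pos h1]; exact h2) j hj v hv

end Pool.Agent.Results.MP_6c43ae_an.NearFubiniStudy
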